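import Mathlib

/-!
# Project BS (helper638): disjoint projective copies of a blocking set in PG(2, p^3)

Statements of the packages. Mathlib only.
-/

set_option autoImplicit false

namespace Pool.Agent.U638.BS

/-- The parameters of the points of the blocking set on the line at infinity. -/
abbrev Inf (F : Type) [Field F] (p : ℕ) : Type := {y : F // y ^ (p ^ 2 + p + 1) = 1}

/-- The parameters of all points of the blocking set. -/
abbrev Idx (F : Type) [Field F] (p : ℕ) : Type := F ⊕ Inf F p

/-- The vectors which represent the points of the blocking set. -/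
def vec {F : Type} [Field F] {p : ℕ} : Idx F p → Fin 3 → F
  | Sum.inl x => ![1, x, x ^ p]
  | Sum.inr y => ![0, 1, y.1]

/-- Package CARD: the number of points at infinity. -/
def S_CARD : Prop := ∀ (F : Type) [Field F] (p : ℕ), p.Prime → Nat.card F = p ^ 3 →
  Nat.card (Inf F p) = p ^ 2 + p + 1

/-- Package LIN: two different points are different, and the points on a line. -/
def S_LIN : Prop := ∀ (F : Type) [Field F] (p : ℕ), p.Prime → Nat.card F = p ^ 3 →
  (∀ i j : Idx F p, i ≠ j → LinearIndependent F ![vec i, vec j]) ∧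
  (∀ i j : Idx F p, i ≠ j → (∃ x, i = Sum.inl x) ∨ (∃ x, j = Sum.inl x) →
    Nat.card {k : Idx F p // ∃ a b : F, vec k = a • vec i + b • vec j} ≤ p + 1) ∧
  (∀ (y z : Inf F p) (k : Idx F p), (∃ a b : F, vec k = a • vec (Sum.inr y : Idx F p) +
    b • vec (Sum.inr z : Idx F p)) → ∃ w, k = Sum.inr w)

/-- There is a projectivity which maps the blocking set to a disjoint set. -/
def Good (F : Type) [Field F] (p : ℕ) : Prop :=
  ∃ M : Matrix (Fin 3) (Fin 3) F, M.det ≠ 0 ∧
    ∀ (i j : Idx F p) (c : F), c ≠ 0 → M.mulVec (vec i) ≠ c • vec j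

/-- Package SM: the small primes. -/
def S_SM (p : ℕ) : Prop := ∀ (F : Type) [Field F], Nat.card F = p ^ 3 → Good F p

/-- Package MAIN. -/
def S_MAIN : Prop := ∀ (F : Type) [Field F] (p : ℕ), p.Prime → 7 ≤ p → Nat.card F = p ^ 3 →
  Good F p

theorem all (h : S_MAIN) (h2 : S_SM 2) (h3 : S_SM 3) (h5 : S_SM 5) (F : Type) [Field F] (p : ℕ)
    (hp : p.Prime) (hF : Nat.card F = p ^ 3) : Good F p := by
  by_cases h7 : 7 ≤ p
  · exact h F p hp h7 hF
  · have : p = 2 ∨ p = 3 ∨ p = 5 := by
      have := hp.two_le
      interval_cases p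
      · simp
      · simp
      · exact absurd hp (by norm_num)
      · simp
      · exact absurd hp (by norm_num)
    rcases this with rfl | rfl | rfl
    · exact h2 F hF
    · exact h3 F hF
    · exact h5 F hF

end Pool.Agent.U638.BS
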