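import Mathlib

/-! Project BS: counting matrices with prescribed values, Bonferroni. -/

set_option autoImplicit false

namespace Pool.Agent.U638.BS

open Finset

theorem fib {A B : Type} [AddCommGroup A] [Fintype A] [AddCommGroup B] [Fintype B] [DecidableEq B]
    (f : A →+ B) (hf : Function.Surjective f) (S : Finset B) :
    (univ.filter (fun a => f a ∈ S)).card * Fintype.card B = S.card * Fintype.card A := by
  have hk : ∀ b : B, (univ.filter (fun a => f a = b)).card =
      (univ.filter (fun a => f a = 0)).card := fun b =>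
    AddMonoidHom.card_fiber_eq_of_mem_range f (hf b) (hf 0)
  set k := (univ.filter (fun a => f a = 0)).card with hkd
  have h1 : Fintype.card A = Fintype.card B * k := by
    rw [← Finset.card_univ, Finset.card_eq_sum_card_fiberwise (f := f) (t := univ)
      (fun _ _ => by simp), Finset.sum_congr rfl (fun b _ => hk b)]
    simp
  have h2 : (univ.filter (fun a => f a ∈ S)).card = S.card * k := by
    rw [Finset.card_eq_sum_card_fiberwise (f := f) (t := S)
      (fun a ha => by simpa using ha)]
    have : ∀ b ∈ S, ((univ.filter (fun a => f a ∈ S)).filter (fun a => f a = b)).card = k := by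
      intro b hb
      rw [← hk b]
      congr 1
      ext a
      simp only [mem_filter, mem_univ, true_and]
      constructor
      · exact fun h => h.2
      · intro h; exact ⟨by rw [h]; exact hb, h⟩
    rw [Finset.sum_congr rfl this]
    simp
  rw [h1, h2]; ring

theorem exists_matrix {F : Type} [Field F] {k : ℕ} (u : Fin k → Fin 3 → F)
    (hu : LinearIndependent F u) (w : Fin k → Fin 3 → F) :
    ∃ M : Matrix (Fin 3) (Fin 3) F, ∀ i, M.mulVec (u i) = w i := by
  obtain ⟨g, hg⟩ := LinearMap.exists_extend ((Module.Basis.span hu).constr F w)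
  refine ⟨LinearMap.toMatrix' g, fun i => ?_⟩
  rw [LinearMap.toMatrix'_mulVec]
  have h1 : g (u i) = (g ∘ₗ (Submodule.span F (Set.range u)).subtype)
      (Module.Basis.span hu i) := by
    simp [Module.Basis.span_apply]
  rw [h1, hg, Module.Basis.constr_basis]

/-- evaluation at several vectors -/
def evm {F : Type} [Field F] {k : ℕ} (u : Fin k → Fin 3 → F) :
    Matrix (Fin 3) (Fin 3) F →+ (Fin k → Fin 3 → F) where
  toFun M := fun i => M.mulVec (u i)
  map_zero' := by ext; simp
  map_add' A B := by ext i; simp [Matrix.add_mulVec]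

theorem count_li {F : Type} [Field F] [Fintype F] [DecidableEq F] {k : ℕ}
    (u : Fin k → Fin 3 → F) (hu : LinearIndependent F u) (S : Finset (Fin k → Fin 3 → F)) :
    (univ.filter (fun M : Matrix (Fin 3) (Fin 3) F => (fun i => M.mulVec (u i)) ∈ S)).card *
      (Fintype.card F ^ 3) ^ k = S.card * Fintype.card F ^ 9 := by
  have h := fib (evm u) (fun w => by
    obtain ⟨M, hM⟩ := exists_matrix u hu w
    exact ⟨M, funext hM⟩) S
  have e1 : Fintype.card (Fin k → Fin 3 → F) = (Fintype.card F ^ 3) ^ k := by simp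
  have e2 : Fintype.card (Matrix (Fin 3) (Fin 3) F) = Fintype.card F ^ 9 := by
    rw [← Nat.card_eq_fintype_card]
    change Nat.card (Fin 3 → Fin 3 → F) = _
    rw [Nat.card_eq_fintype_card, Fintype.card_fun, Fintype.card_fun, Fintype.card_fin, ← pow_mul]
  rw [e1, e2] at h
  exact h

theorem sum2 {I : Type} [Fintype I] [DecidableEq I] (f : I → ℤ) (hf : ∀ i, f i * f i = f i) :
    ∑ i, ∑ j ∈ univ.erase i, f i * f j = (∑ i, f i) * (∑ i, f i - 1) := by
  have : ∀ i, ∑ j ∈ univ.erase i, f i * f j = f i * (∑ i, f i - 1) := by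
    intro i
    rw [← Finset.mul_sum, Finset.sum_erase_eq_sub (mem_univ i), mul_sub, hf]
    ring
  rw [Finset.sum_congr rfl fun i _ => this i, ← Finset.sum_mul]

theorem sum3 {I : Type} [Fintype I] [DecidableEq I] (f : I → ℤ) (hf : ∀ i, f i * f i = f i) :
    ∑ i, ∑ j ∈ univ.erase i, ∑ k ∈ (univ.erase i).erase j, f i * f j * f k =
      (∑ i, f i) * (∑ i, f i - 1) * (∑ i, f i - 2) := by
  have h : ∀ i, ∀ j ∈ univ.erase i, ∑ k ∈ (univ.erase i).erase j, f i * f j * f k =
      f i * f j * (∑ i, f i - 2) := by
    intro i j hj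
    rw [← Finset.mul_sum, Finset.sum_erase_eq_sub hj, Finset.sum_erase_eq_sub (mem_univ i)]
    have h1 := hf i
    have h2 := hf j
    linear_combination (-(f j)) * h1 - f i * h2
  rw [Finset.sum_congr rfl fun i _ => Finset.sum_congr rfl (h i)]
  rw [← sum2 f hf, Finset.sum_mul]
  refine Finset.sum_congr rfl fun i _ => ?_
  rw [Finset.sum_mul]

theorem bonf (x : ℤ) (hx : 0 ≤ x) :
    6 - 6 * x + 3 * (x * (x - 1)) - x * (x - 1) * (x - 2) ≤ if x = 0 then 6 else 0 := by
  split_ifs with h
  · subst h; norm_num
  · have h1 : 1 ≤ x := by omega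
    have e : 6 - 6 * x + 3 * (x * (x - 1)) - x * (x - 1) * (x - 2) =
        -((x - 1) * ((x - 2) * (x - 3))) := by ring
    rw [e]
    have h2 : 0 ≤ (x - 2) * (x - 3) := by
      rcases le_or_gt x 2 with h | h
      · nlinarith
      · exact mul_nonneg (by omega) (by omega)
    have := mul_nonneg (show 0 ≤ x - 1 by omega) h2
    linarith

theorem card_det {F : Type} [Field F] [Fintype F] [DecidableEq F] :
    (univ.filter (fun M : Matrix (Fin 3) (Fin 3) F => M.det ≠ 0)).card =
      (Fintype.card F ^ 3 - 1) * (Fintype.card F ^ 3 - Fintype.card F) *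
        (Fintype.card F ^ 3 - Fintype.card F ^ 2) := by
  have h := Matrix.card_GL_field (𝔽 := F) 3
  rw [Fin.prod_univ_three] at h
  simp only [Fin.val_zero, pow_zero, Fin.val_one, pow_one, Fin.val_two] at h
  rw [← h, Nat.card_eq_fintype_card, ← Finset.card_univ]
  symm
  apply Finset.card_bij (fun (g : GL (Fin 3) F) _ => (g : Matrix (Fin 3) (Fin 3) F))
  · intro g _
    simp only [mem_filter, mem_univ, true_and]
    exact (Matrix.isUnit_iff_isUnit_det _).1 g.isUnit |>.ne_zero
  · intro a _ b _ hab
    exact Units.ext hab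
  · intro M hM
    simp only [mem_filter, mem_univ, true_and] at hM
    exact ⟨Matrix.GeneralLinearGroup.mkOfDetNeZero M hM, mem_univ _, rfl⟩

end Pool.Agent.U638.BS
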