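import Mathlib
import Pool.Agent.U638.BS.A1

/-! Project BS: the counting argument for a family of pairwise independent vectors. -/

set_option autoImplicit false

namespace Pool.Agent.U638.BS

open Finset

theorem pair0 {F : Type} [Field F] {u v : Fin 3 → F} (h : LinearIndependent F ![u, v]) {a b : F}
    (e : a • u + b • v = 0) : a = 0 ∧ b = 0 := LinearIndependent.pair_iff.1 h a b e

theorem inner1 {F : Type} [Field F] (u v w : Fin 3 → F) (huv : LinearIndependent F ![u, v])
    (hw : w = v ∨ LinearIndependent F ![v, w]) (α β : F) (hα : α ≠ 0) (hβ : β ≠ 0)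
    (c1 c2 c2' d d' : F) (hc1 : c1 ≠ 0)
    (hd : (α * c1) • u + (β * c2) • v = d • w) (hd' : (α * c1) • u + (β * c2') • v = d' • w) :
    c2 = c2' := by
  rcases hw with hw | hw
  · subst hw
    have e : (α * c1) • u + (β * c2 - d) • w = 0 := by
      rw [sub_smul, ← add_sub_assoc, hd, sub_self]
    exact absurd (pair0 huv e).1 (mul_ne_zero hα hc1)
  · have e : (β * c2 - β * c2') • v + (-(d - d')) • w = 0 := by
      have : (β * c2 - β * c2') • v = (d - d') • w := by
        rw [sub_smul, sub_smul, ← hd, ← hd']; abel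
      rw [this, neg_smul]; simp
    have e1 := (pair0 hw e).1
    have : β * (c2 - c2') = 0 := by rw [mul_sub]; exact e1
    rcases mul_eq_zero.1 this with h | h
    · exact absurd h hβ
    · exact sub_eq_zero.1 h

theorem inv_comb {F : Type} [Field F] (u v w : Fin 3 → F) (a b d : F) (hd : d ≠ 0)
    (h : a • u + b • v = d • w) : w = (d⁻¹ * a) • u + (d⁻¹ * b) • v := by
  rw [mul_smul, mul_smul, ← smul_add, h, smul_smul, inv_mul_cancel₀ hd, one_smul]

variable {F : Type} [Field F] [Fintype F] [DecidableEq F]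

theorem inner2 (u v w : Fin 3 → F) (huv : LinearIndependent F ![u, v])
    (hw : w = v ∨ LinearIndependent F ![v, w]) (α β : F) (hα : α ≠ 0) (hβ : β ≠ 0)
    [DecidablePred fun c : Fˣ × Fˣ => ∃ d : Fˣ,
      (α * (c.1 : F)) • u + (β * (c.2 : F)) • v = (d : F) • w] :
    (univ.filter (fun c : Fˣ × Fˣ => ∃ d : Fˣ,
      (α * (c.1 : F)) • u + (β * (c.2 : F)) • v = (d : F) • w)).card ≤ Fintype.card F - 1 := by
  have key : (univ.filter (fun c : Fˣ × Fˣ => ∃ d : Fˣ,
      (α * (c.1 : F)) • u + (β * (c.2 : F)) • v = (d : F) • w)).card ≤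
      (univ : Finset Fˣ).card := by
    refine card_le_card_of_injOn Prod.fst (fun _ _ => mem_coe.2 (mem_univ _)) ?_
    intro x h1 y h2 hcc
    obtain ⟨d, hd⟩ := (mem_filter.1 (mem_coe.1 h1)).2
    obtain ⟨d', hd'⟩ := (mem_filter.1 (mem_coe.1 h2)).2
    rw [← hcc] at hd'
    have := inner1 u v w huv hw α β hα hβ (x.1 : F) x.2 y.2 d d' x.1.ne_zero hd hd'
    exact Prod.ext hcc (Units.ext this)
  rwa [Finset.card_univ, Fintype.card_units] at key

theorem cnt_cone {k : ℕ} (u : Fin k → Fin 3 → F) (hu : LinearIndependent F u)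
    (C : Finset (Fin 3 → F)) :
    (univ.filter (fun M : Matrix (Fin 3) (Fin 3) F => ∀ i, M.mulVec (u i) ∈ C)).card *
      (Fintype.card F ^ 3) ^ k = C.card ^ k * Fintype.card F ^ 9 := by
  have h := count_li u hu (Fintype.piFinset (fun _ => C))
  simp only [Fintype.mem_piFinset, Fintype.card_piFinset, prod_const, Finset.card_univ,
    Fintype.card_fin] at h
  exact h

variable {I : Type} [Fintype I] [DecidableEq I] (v : I → Fin 3 → F)

open scoped Classical in
/-- the cone over the points -/
noncomputable def cone (v : I → Fin 3 → F) : Finset (Fin 3 → F) :=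
  univ.filter (fun w => ∃ (j : I) (c : Fˣ), w = (c : F) • v j)

theorem mem_cone (w : Fin 3 → F) : w ∈ cone v ↔ ∃ (j : I) (c : Fˣ), w = (c : F) • v j := by
  simp [cone]

theorem cone_card (hv : ∀ i, v i ≠ 0) (hLI : ∀ i j : I, i ≠ j → LinearIndependent F ![v i, v j]) :
    (cone v).card = Fintype.card I * (Fintype.card F - 1) := by
  have h : cone v = (univ : Finset (I × Fˣ)).image (fun x => (x.2 : F) • v x.1) := by
    ext w
    rw [mem_cone]
    simp only [mem_image, mem_univ, true_and, Prod.exists]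
    constructor
    · rintro ⟨j, c, rfl⟩; exact ⟨j, c, rfl⟩
    · rintro ⟨j, c, rfl⟩; exact ⟨j, c, rfl⟩
  rw [h, card_image_of_injective, card_univ, Fintype.card_prod, Fintype.card_units]
  rintro ⟨i, c⟩ ⟨j, d⟩ hij
  simp only at hij
  by_cases hh : i = j
  · subst hh
    have : ((c : F) - d) • v i = 0 := by rw [sub_smul, hij, sub_self]
    rcases smul_eq_zero.1 this with h1 | h1
    · have : c = d := Units.ext (sub_eq_zero.1 h1)
      rw [this]
    · exact absurd h1 (hv i)
  · have h1 : (c : F) • v i + (-(d : F)) • v j = 0 := by rw [neg_smul, hij]; simp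
    exact absurd (pair0 (hLI i j hh) h1).1 c.ne_zero

open scoped Classical in
/-- the number of points on the line through two points -/
noncomputable def nn (v : I → Fin 3 → F) (i j : I) : ℕ :=
  (univ.filter (fun k : I => ∃ a b : F, v k = a • v i + b • v j)).card

theorem A_inner (hLI : ∀ i j : I, i ≠ j → LinearIndependent F ![v i, v j])
    (α β : F) (hα : α ≠ 0) (hβ : β ≠ 0) (i j : I) (hij : i ≠ j) :
    (univ.filter (fun c : Fˣ × Fˣ => (α * (c.1 : F)) • v i + (β * (c.2 : F)) • v j ∈ cone v)).card ≤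
      nn v i j * (Fintype.card F - 1) := by
  classical
  have hsub : univ.filter (fun c : Fˣ × Fˣ =>
      (α * (c.1 : F)) • v i + (β * (c.2 : F)) • v j ∈ cone v) ⊆
      (univ.filter (fun k : I => ∃ a b : F, v k = a • v i + b • v j)).biUnion
        (fun k => univ.filter (fun c : Fˣ × Fˣ => ∃ d : Fˣ,
          (α * (c.1 : F)) • v i + (β * (c.2 : F)) • v j = (d : F) • v k)) := by
    intro c hc
    simp only [mem_filter, mem_univ, true_and, mem_cone] at hc
    obtain ⟨k, d, hd⟩ := hc
    simp only [mem_biUnion, mem_filter, mem_univ, true_and]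
    exact ⟨k, ⟨_, _, inv_comb _ _ _ _ _ _ d.ne_zero hd⟩, d, hd⟩
  refine (card_le_card hsub).trans ?_
  have h2 := card_biUnion_le_card_mul
    (univ.filter (fun k : I => ∃ a b : F, v k = a • v i + b • v j))
    (fun k => univ.filter (fun c : Fˣ × Fˣ => ∃ d : Fˣ,
          (α * (c.1 : F)) • v i + (β * (c.2 : F)) • v j = (d : F) • v k)) (Fintype.card F - 1)
    (fun k _ => by
      refine inner2 (v i) (v j) (v k) (hLI i j hij) ?_ α β hα hβ
      by_cases hkj : k = j
      · exact Or.inl (by rw [hkj])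
      · exact Or.inr (hLI j k (Ne.symm hkj)))
  refine h2.trans (le_of_eq ?_)
  unfold nn
  congr

theorem A_card (hLI : ∀ i j : I, i ≠ j → LinearIndependent F ![v i, v j])
    (α β : F) (hα : α ≠ 0) (hβ : β ≠ 0) :
    ((Fintype.piFinset (fun _ : Fin 2 => cone v)).filter
      (fun w => α • w 0 + β • w 1 ∈ cone v)).card ≤
      Fintype.card I * (Fintype.card F - 1) ^ 2 +
        (∑ i, ∑ j ∈ univ.erase i, nn v i j) * (Fintype.card F - 1) := by
  set W : Finset ((I × I) × (Fˣ × Fˣ)) := univ.filter (fun x =>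
    (α * (x.2.1 : F)) • v x.1.1 + (β * (x.2.2 : F)) • v x.1.2 ∈ cone v) with hW
  have h1 : (Fintype.piFinset (fun _ : Fin 2 => cone v)).filter
      (fun w => α • w 0 + β • w 1 ∈ cone v) ⊆
      W.image (fun x => ![(x.2.1 : F) • v x.1.1, (x.2.2 : F) • v x.1.2]) := by
    intro w hw
    rw [mem_filter, Fintype.mem_piFinset] at hw
    obtain ⟨i, c, h0⟩ := (mem_cone v _).1 (hw.1 0)
    obtain ⟨j, d, h1⟩ := (mem_cone v _).1 (hw.1 1)
    rw [mem_image]
    refine ⟨((i, j), (c, d)), ?_, ?_⟩
    · rw [hW, mem_filter]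
      refine ⟨mem_univ _, ?_⟩
      have := hw.2
      rw [h0, h1, smul_smul, smul_smul] at this
      exact this
    · ext t
      fin_cases t
      · simp [h0]
      · simp [h1]
  refine (card_le_card h1).trans (card_image_le.trans ?_)
  rw [hW, card_filter, Fintype.sum_prod_type]
  simp only [← card_filter]
  rw [Fintype.sum_prod_type]
  have h2 : ∀ i : I, ∑ j : I, (univ.filter (fun c : Fˣ × Fˣ =>
      (α * (c.1 : F)) • v i + (β * (c.2 : F)) • v j ∈ cone v)).card ≤
      (Fintype.card F - 1) ^ 2 + (∑ j ∈ univ.erase i, nn v i j) * (Fintype.card F - 1) := by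
    intro i
    rw [← Finset.add_sum_erase univ _ (mem_univ i), Finset.sum_mul]
    refine add_le_add ?_ (sum_le_sum fun j hj => ?_)
    · refine (card_le_univ _).trans ?_
      rw [Fintype.card_prod, Fintype.card_units, sq]
    · exact A_inner v hLI α β hα hβ i j (Ne.symm (ne_of_mem_erase hj))
  refine (sum_le_sum fun i _ => h2 i).trans ?_
  rw [sum_add_distrib, sum_mul, sum_const, card_univ, smul_eq_mul]

end Pool.Agent.U638.BS
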