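import Mathlib
import Pool.Agent.U638.BS.A2

/-! Project BS: the moments. -/

set_option autoImplicit false

namespace Pool.Agent.U638.BS

open Finset

variable {F : Type} [Field F] [Fintype F] [DecidableEq F]
variable {I : Type} [Fintype I] [DecidableEq I] (v : I → Fin 3 → F)

/-- indicator -/
noncomputable def ind (C : Finset (Fin 3 → F)) (M : Matrix (Fin 3) (Fin 3) F) (i : I) : ℤ :=
  if M.mulVec (v i) ∈ C then 1 else 0

theorem ind_sq (C : Finset (Fin 3 → F)) (M : Matrix (Fin 3) (Fin 3) F) (i : I) :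
    ind v C M i * ind v C M i = ind v C M i := by
  unfold ind; split_ifs <;> simp

theorem m1 (hv : ∀ i, v i ≠ 0) (C : Finset (Fin 3 → F)) (i : I) :
    ∑ M, ind v C M i = C.card * (Fintype.card F : ℤ) ^ 6 := by
  have h := cnt_cone (k := 1) (fun _ => v i) (by
    rw [linearIndependent_unique_iff]; exact hv i) C
  have h1 : ∑ M, ind v C M i = ((univ.filter (fun M : Matrix (Fin 3) (Fin 3) F =>
      ∀ _ : Fin 1, M.mulVec (v i) ∈ C)).card : ℤ) := by
    unfold ind
    rw [← Finset.sum_boole]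
    refine Finset.sum_congr rfl fun M _ => ?_
    simp
  have h0 : (Fintype.card F : ℤ) ^ 3 ≠ 0 := pow_ne_zero _ (by exact_mod_cast Fintype.card_ne_zero)
  have h2 : (((univ.filter (fun M : Matrix (Fin 3) (Fin 3) F =>
      ∀ _ : Fin 1, M.mulVec (v i) ∈ C)).card : ℕ) : ℤ) * ((Fintype.card F : ℤ) ^ 3) ^ 1 =
      (C.card : ℤ) ^ 1 * (Fintype.card F : ℤ) ^ 9 := by exact_mod_cast h
  rw [h1]
  apply mul_right_cancel₀ h0
  linear_combination h2

theorem m2 (C : Finset (Fin 3 → F)) (i j : I) (hij : LinearIndependent F ![v i, v j]) :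
    ∑ M, ind v C M i * ind v C M j = (C.card : ℤ) ^ 2 * (Fintype.card F : ℤ) ^ 3 := by
  have h := cnt_cone (k := 2) ![v i, v j] hij C
  have h1 : ∑ M, ind v C M i * ind v C M j = ((univ.filter (fun M : Matrix (Fin 3) (Fin 3) F =>
      ∀ t : Fin 2, M.mulVec (![v i, v j] t) ∈ C)).card : ℤ) := by
    unfold ind
    rw [← Finset.sum_boole]
    refine Finset.sum_congr rfl fun M _ => ?_
    simp only [Fin.forall_fin_two, Matrix.cons_val_zero, Matrix.cons_val_one]
    split_ifs <;> simp_all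
  have h0 : ((Fintype.card F : ℤ) ^ 3) ^ 2 ≠ 0 :=
    pow_ne_zero _ (pow_ne_zero _ (by exact_mod_cast Fintype.card_ne_zero))
  have h2 : (((univ.filter (fun M : Matrix (Fin 3) (Fin 3) F =>
      ∀ t : Fin 2, M.mulVec (![v i, v j] t) ∈ C)).card : ℕ) : ℤ) * ((Fintype.card F : ℤ) ^ 3) ^ 2 =
      (C.card : ℤ) ^ 2 * (Fintype.card F : ℤ) ^ 9 := by exact_mod_cast h
  rw [h1]
  apply mul_right_cancel₀ h0
  linear_combination h2

theorem m3 (C : Finset (Fin 3 → F)) (i j k : I) (h3 : LinearIndependent F ![v k, v i, v j]) :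
    ∑ M, ind v C M i * ind v C M j * ind v C M k = (C.card : ℤ) ^ 3 := by
  have h := cnt_cone (k := 3) ![v k, v i, v j] h3 C
  have h1 : ∑ M, ind v C M i * ind v C M j * ind v C M k =
      ((univ.filter (fun M : Matrix (Fin 3) (Fin 3) F =>
      ∀ t : Fin 3, M.mulVec (![v k, v i, v j] t) ∈ C)).card : ℤ) := by
    unfold ind
    rw [← Finset.sum_boole]
    refine Finset.sum_congr rfl fun M _ => ?_
    simp only [Fin.forall_fin_succ, Matrix.cons_val_zero, Matrix.cons_val_succ, Fin.succ_zero_eq_one,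
      Matrix.cons_val_one, IsEmpty.forall_iff, and_true]
    split_ifs <;> simp_all
  have h0 : ((Fintype.card F : ℤ) ^ 3) ^ 3 ≠ 0 :=
    pow_ne_zero _ (pow_ne_zero _ (by exact_mod_cast Fintype.card_ne_zero))
  have h2 : (((univ.filter (fun M : Matrix (Fin 3) (Fin 3) F =>
      ∀ t : Fin 3, M.mulVec (![v k, v i, v j] t) ∈ C)).card : ℕ) : ℤ) *
        ((Fintype.card F : ℤ) ^ 3) ^ 3 =
      (C.card : ℤ) ^ 3 * (Fintype.card F : ℤ) ^ 9 := by exact_mod_cast h
  rw [h1]
  apply mul_right_cancel₀ h0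
  linear_combination h2

theorem m3dep (C : Finset (Fin 3 → F)) (i j k : I) (hij : LinearIndependent F ![v i, v j])
    (α β : F) (hk : v k = α • v i + β • v j) :
    ∑ M, ind v C M i * ind v C M j * ind v C M k =
      (((Fintype.piFinset (fun _ : Fin 2 => C)).filter
        (fun w => α • w 0 + β • w 1 ∈ C)).card : ℤ) * (Fintype.card F : ℤ) ^ 3 := by
  have h := count_li ![v i, v j] hij ((Fintype.piFinset (fun _ : Fin 2 => C)).filter
        (fun w => α • w 0 + β • w 1 ∈ C))
  set A := (Fintype.piFinset (fun _ : Fin 2 => C)).filter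
        (fun w => α • w 0 + β • w 1 ∈ C) with hA
  have h1 : ∑ M, ind v C M i * ind v C M j * ind v C M k =
      ((univ.filter (fun M : Matrix (Fin 3) (Fin 3) F =>
      (fun t => M.mulVec (![v i, v j] t)) ∈ A)).card : ℤ) := by
    unfold ind
    rw [← Finset.sum_boole]
    refine Finset.sum_congr rfl fun M _ => ?_
    have e : M.mulVec (v k) = α • M.mulVec (v i) + β • M.mulVec (v j) := by
      rw [hk, Matrix.mulVec_add, Matrix.mulVec_smul, Matrix.mulVec_smul]
    have hmem : (fun t => M.mulVec (![v i, v j] t)) ∈ A ↔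
        (M.mulVec (v i) ∈ C ∧ M.mulVec (v j) ∈ C) ∧ M.mulVec (v k) ∈ C := by
      rw [hA, mem_filter, Fintype.mem_piFinset, e]
      simp only [Fin.forall_fin_two, Matrix.cons_val_zero, Matrix.cons_val_one]
    by_cases hA' : (fun t => M.mulVec (![v i, v j] t)) ∈ A
    · obtain ⟨⟨a, b⟩, c⟩ := hmem.1 hA'
      rw [if_pos a, if_pos b, if_pos c, if_pos hA']; norm_num
    · rw [if_neg hA']
      by_cases a : M.mulVec (v i) ∈ C
      · by_cases b : M.mulVec (v j) ∈ C
        · by_cases c : M.mulVec (v k) ∈ C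
          · exact absurd (hmem.2 ⟨⟨a, b⟩, c⟩) hA'
          · rw [if_neg c]; ring
        · rw [if_neg b]; ring
      · rw [if_neg a]; ring
  have h0 : ((Fintype.card F : ℤ) ^ 3) ^ 2 ≠ 0 :=
    pow_ne_zero _ (pow_ne_zero _ (by exact_mod_cast Fintype.card_ne_zero))
  have h2 : (((univ.filter (fun M : Matrix (Fin 3) (Fin 3) F =>
      (fun t => M.mulVec (![v i, v j] t)) ∈ A)).card : ℕ) : ℤ) * ((Fintype.card F : ℤ) ^ 3) ^ 2 =
      (A.card : ℤ) * (Fintype.card F : ℤ) ^ 9 := by exact_mod_cast h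
  rw [h1]
  apply mul_right_cancel₀ h0
  linear_combination h2

theorem li3 (i j k : I) (hij : LinearIndependent F ![v i, v j])
    (hk : ¬ ∃ a b : F, v k = a • v i + b • v j) : LinearIndependent F ![v k, v i, v j] := by
  rw [show (![v k, v i, v j] : Fin 3 → Fin 3 → F) = Fin.cons (v k) ![v i, v j] from rfl,
    linearIndependent_finCons]
  refine ⟨hij, fun h => hk ?_⟩
  rw [Matrix.range_cons, Matrix.range_cons, Matrix.range_empty, Set.union_empty,
    Set.singleton_union] at h
  obtain ⟨a, b, hab⟩ := Submodule.mem_span_pair.1 h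
  exact ⟨a, b, hab.symm⟩

end Pool.Agent.U638.BS
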