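import Mathlib

/-! Project BS: the numerical inequality. -/

set_option autoImplicit false

namespace Pool.Agent.U638.BS

set_option maxRecDepth 10000 in
theorem num (p q b s T : ℤ) (hp : 7 ≤ p) (hq : q = p ^ 3) (hb : b = p ^ 3 + p ^ 2 + p + 1)
    (hs : s = p ^ 2 + p + 1) (hT : T = b ^ 2 * (p + 1) + s ^ 3) :
    0 < 6 * ((q ^ 3 - 1) * (q ^ 3 - q) * (q ^ 3 - q ^ 2)) - 6 * (b * (b * (q - 1)) * q ^ 6) +
      3 * (b * (b - 1) * (b * (q - 1)) ^ 2 * q ^ 3) -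
      b * (b - 1) * (b - 2) * (b * (q - 1)) ^ 3 -
      T * ((b * (q - 1) ^ 2 + (q - 1) * T) * q ^ 3) := by
  obtain ⟨t, rfl⟩ : ∃ t, p = t + 7 := ⟨p - 7, by ring⟩
  have ht : 0 ≤ t := by omega
  subst hT hs hb hq
  ring_nf
  positivity

end Pool.Agent.U638.BS
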