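import Mathlib
import Pool.Agent.U638.BS.Stm
import Pool.Agent.U638.BS.A4
import Pool.Agent.U638.BS.Num
import Pool.Agent.U446.BS.LIN
import Pool.Agent.U458.BS.SM3
import Pool.Agent.U212.BS.SM5

/-! Project BS: the main package and the assembly. -/

set_option autoImplicit false

namespace Pool.Agent.U638.BS

open Finset

theorem vec_ne {F : Type} [Field F] {p : ℕ} (i : Idx F p) : vec i ≠ 0 := by
  intro h
  rcases i with x | y
  · have := congrFun h 0; simp [vec] at this
  · have := congrFun h 1; simp [vec] at this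

theorem main_ok : S_MAIN := by
  intro F _ p hp h7 hF
  have hfin : Finite F := Nat.finite_of_card_ne_zero (by
    rw [hF]; exact pow_ne_zero _ hp.ne_zero)
  have := Fintype.ofFinite F
  classical
  obtain ⟨l1, l2, l3⟩ := lin_ok F p hp hF
  have hc := card_ok F p hp hF
  have hF' : Fintype.card F = p ^ 3 := by rw [← Nat.card_eq_fintype_card]; exact hF
  have hI : Fintype.card (Inf F p) = p ^ 2 + p + 1 := by
    rw [← Nat.card_eq_fintype_card]; exact hc
  have hb : Fintype.card (Idx F p) = p ^ 3 + p ^ 2 + p + 1 := by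
    rw [Fintype.card_sum, hF', hI]; ring
  generalize hvv : (vec : Idx F p → Fin 3 → F) = v at *
  have hn : ∀ i j : Idx F p, i ≠ j → nn v i j ≤ (p + 1) +
      (if i.isRight = true ∧ j.isRight = true then p ^ 2 + p + 1 else 0) := by
    intro i j hij
    by_cases h : i.isRight = true ∧ j.isRight = true
    · rw [if_pos h]
      obtain ⟨y, rfl⟩ := Sum.isRight_iff.1 h.1
      obtain ⟨z, rfl⟩ := Sum.isRight_iff.1 h.2
      have hk : nn v (Sum.inr y) (Sum.inr z) ≤
          ((univ : Finset (Inf F p)).image (Sum.inr : Inf F p → Idx F p)).card := by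
        unfold nn
        refine card_le_card fun k hk => ?_
        obtain ⟨w, rfl⟩ := l3 y z k (mem_filter.1 hk).2
        exact mem_image_of_mem _ (mem_univ w)
      rw [card_image_of_injective _ Sum.inr_injective, card_univ, hI] at hk
      omega
    · rw [if_neg h]
      have h' : (∃ x, i = Sum.inl x) ∨ ∃ x, j = Sum.inl x := by
        rcases i with x | y
        · exact Or.inl ⟨x, rfl⟩
        · rcases j with x | z
          · exact Or.inr ⟨x, rfl⟩
          · exact absurd ⟨rfl, rfl⟩ h
      have h2 := l2 i j hij h'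
      rw [Nat.card_eq_fintype_card, Fintype.card_subtype] at h2
      unfold nn
      refine le_trans (le_of_eq ?_) (h2.trans (le_of_eq (by ring)))
      congr
  have hT : (∑ i, ∑ j ∈ univ.erase i, nn v i j) ≤
      (p ^ 3 + p ^ 2 + p + 1) ^ 2 * (p + 1) + (p ^ 2 + p + 1) ^ 3 := by
    have h1 : (∑ i, ∑ j ∈ univ.erase i, nn v i j) ≤ ∑ i : Idx F p, ∑ j : Idx F p, ((p + 1) +
        (if i.isRight = true ∧ j.isRight = true then p ^ 2 + p + 1 else 0)) := by
      refine sum_le_sum fun i _ => ?_
      refine (sum_le_sum fun j hj => hn i j (ne_of_mem_erase hj).symm).trans ?_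
      exact sum_le_sum_of_subset (subset_univ _)
    refine h1.trans (le_of_eq ?_)
    simp only [sum_add_distrib, sum_const, card_univ, smul_eq_mul, Fintype.sum_sum_type,
      Sum.isRight_inl, Sum.isRight_inr, and_true, and_false, if_true, if_false,
      hb, hI, Bool.false_eq_true]
    simp only [mul_zero, zero_add, false_and, if_false, sum_const_zero, and_self, if_true,
      sum_const, card_univ, hI, smul_eq_mul]
    ring
  obtain ⟨M, hM, hM2⟩ := exists_good v (by rw [← hvv]; exact vec_ne) l1 ((p : ℤ) ^ 3)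
    ((p : ℤ) ^ 3 + p ^ 2 + p + 1)
    (((p : ℤ) ^ 3 + p ^ 2 + p + 1) ^ 2 * (p + 1) + ((p : ℤ) ^ 2 + p + 1) ^ 3)
    (by rw [hF']; push_cast; ring) (by rw [hb]; push_cast; ring) (by exact_mod_cast hT)
    (num p _ _ ((p : ℤ) ^ 2 + p + 1) _ (by exact_mod_cast h7) rfl rfl rfl rfl)
  refine ⟨M, hM, fun i j c hc0 h => hM2 i ?_⟩
  rw [mem_cone]
  refine ⟨j, Units.mk0 c hc0, ?_⟩
  rw [hvv] at h
  exact h

theorem good (F : Type) [Field F] (p : ℕ) (hp : p.Prime) (hF : Nat.card F = p ^ 3) : Good F p :=
  all main_ok sm2_ok sm3_ok sm5_ok F p hp hF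

end Pool.Agent.U638.BS
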