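import Mathlib
import Pool.Agent.U638.BS.A4

/-! Project BS: the third Bonferroni inequality, number of good matrices. -/

set_option autoImplicit false

namespace Pool.Agent.U638.BS

open Finset

variable {F : Type} [Field F] [Fintype F] [DecidableEq F]
variable {I : Type} [Fintype I] [DecidableEq I] (v : I → Fin 3 → F)

theorem count_good (hv : ∀ i, v i ≠ 0)
    (hLI : ∀ i j : I, i ≠ j → LinearIndependent F ![v i, v j]) (q b T : ℤ)
    (hq : q = Fintype.card F) (hb : b = Fintype.card I)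
    (hT : ((∑ i, ∑ j ∈ univ.erase i, nn v i j : ℕ) : ℤ) ≤ T)
    (G : Finset (Matrix (Fin 3) (Fin 3) F))
    (hG : ∀ M, M ∈ G ↔ M.det ≠ 0 ∧ ∀ i, M.mulVec (v i) ∉ cone v) :
    6 * ((q ^ 3 - 1) * (q ^ 3 - q) * (q ^ 3 - q ^ 2)) -
      6 * (b * (b * (q - 1)) * q ^ 6) +
      3 * (b * (b - 1) * (b * (q - 1)) ^ 2 * q ^ 3) -
      b * (b - 1) * (b - 2) * (b * (q - 1)) ^ 3 -
      T * ((b * (q - 1) ^ 2 + (q - 1) * T) * q ^ 3) ≤ 6 * (G.card : ℤ) := by
  set C := cone v with hC
  have hq1 : 1 ≤ Fintype.card F := Fintype.card_pos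
  have hcard : (C.card : ℤ) = b * (q - 1) := by
    rw [hC, cone_card v hv hLI, hb, hq]; push_cast [hq1]; ring
  have hq0 : 0 ≤ q - 1 := by rw [hq]; have : (1 : ℤ) ≤ Fintype.card F := by exact_mod_cast hq1
                             linarith
  have hb0 : 0 ≤ b := by rw [hb]; positivity
  have hT0 : 0 ≤ T := le_trans (by positivity) hT
  have hqq : 0 ≤ q := by linarith
  -- the bound of `A_card`
  set m : ℤ := b * (q - 1) ^ 2 + (q - 1) * T with hm
  have hm0 : 0 ≤ m := by positivity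
  have hA : ∀ α β : F, α ≠ 0 → β ≠ 0 → (((Fintype.piFinset (fun _ : Fin 2 => C)).filter
        (fun w => α • w 0 + β • w 1 ∈ C)).card : ℤ) ≤ m := by
    intro α β hα hβ
    have h := A_card v hLI α β hα hβ
    have h' : (((Fintype.piFinset (fun _ : Fin 2 => C)).filter
        (fun w => α • w 0 + β • w 1 ∈ C)).card : ℤ) ≤
        b * (q - 1) ^ 2 + ((∑ i, ∑ j ∈ univ.erase i, nn v i j : ℕ) : ℤ) * (q - 1) := by
      rw [hb, hq]
      have := Int.ofNat_le.2 h
      push_cast [hq1] at this ⊢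
      exact this
    refine h'.trans ?_
    rw [hm]
    nlinarith
  have t3 := total3 v hLI m hm0 hA
  -- sums
  have X0 : ∀ M, 0 ≤ ∑ i, ind v C M i := fun M => sum_nonneg fun i _ => by
    unfold ind; split_ifs <;> norm_num
  have hS : ∑ M, (6 - 6 * (∑ i, ind v C M i) +
      3 * ((∑ i, ind v C M i) * (∑ i, ind v C M i - 1)) -
      (∑ i, ind v C M i) * (∑ i, ind v C M i - 1) * (∑ i, ind v C M i - 2)) ≤
      ∑ M, if (∑ i, ind v C M i) = 0 then 6 else 0 :=
    sum_le_sum fun M _ => bonf _ (X0 M)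
  have hR : ∑ M : Matrix (Fin 3) (Fin 3) F, (if (∑ i, ind v C M i) = 0 then (6 : ℤ) else 0) ≤
      6 * (q ^ 9 - (q ^ 3 - 1) * (q ^ 3 - q) * (q ^ 3 - q ^ 2)) + 6 * (G.card : ℤ) := by
    have h1 : ∑ M : Matrix (Fin 3) (Fin 3) F, (if (∑ i, ind v C M i) = 0 then (6 : ℤ) else 0) ≤
        ∑ M : Matrix (Fin 3) (Fin 3) F, ((6 - 6 * (if M.det ≠ 0 then 1 else 0)) +
          6 * (if M ∈ G then 1 else 0)) := by
      refine sum_le_sum fun M _ => ?_
      by_cases hM : M.det = 0
      · rw [if_neg (not_not.2 hM)]; split_ifs <;> norm_num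
      by_cases hGM : M ∈ G
      · rw [if_pos hGM]; split_ifs <;> norm_num
      · have hbad : ∃ i, M.mulVec (v i) ∈ C := by
          by_contra hcon
          push Not at hcon
          exact hGM ((hG M).2 ⟨hM, hcon⟩)
        obtain ⟨i, hi⟩ := hbad
        have h1 : 1 ≤ ∑ i, ind v C M i := by
          have h2 : ind v C M i ≤ ∑ i, ind v C M i :=
            single_le_sum (f := fun i => ind v C M i) (fun j _ => by
              simp only [ind]; split_ifs <;> norm_num) (mem_univ i)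
          have h3 : ind v C M i = 1 := by unfold ind; rw [if_pos hi]
          rw [h3] at h2
          exact h2
        rw [if_neg (by omega), if_pos hM, if_neg hGM]; norm_num
    refine h1.trans (le_of_eq ?_)
    rw [sum_add_distrib, sum_sub_distrib, ← mul_sum, ← mul_sum, Finset.sum_boole,
      Finset.sum_boole, card_det, sum_const, card_univ, filter_mem_eq_inter, univ_inter]
    have e9 : Fintype.card (Matrix (Fin 3) (Fin 3) F) = Fintype.card F ^ 9 := by
      rw [← Nat.card_eq_fintype_card]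
      change Nat.card (Fin 3 → Fin 3 → F) = _
      rw [Nat.card_eq_fintype_card, Fintype.card_fun, Fintype.card_fun, Fintype.card_fin,
        ← pow_mul]
    rw [e9]
    have g1 : 1 ≤ Fintype.card F ^ 3 := Nat.one_le_pow _ _ hq1
    have g2 : Fintype.card F ≤ Fintype.card F ^ 3 := Nat.le_self_pow (by norm_num) _
    have g3 : Fintype.card F ^ 2 ≤ Fintype.card F ^ 3 := Nat.pow_le_pow_right hq1 (by norm_num)
    rw [hq]
    push_cast [g1, g2, g3]
    ring
  have hL : ∑ M, (6 - 6 * (∑ i, ind v C M i) +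
      3 * ((∑ i, ind v C M i) * (∑ i, ind v C M i - 1)) -
      (∑ i, ind v C M i) * (∑ i, ind v C M i - 1) * (∑ i, ind v C M i - 2)) =
      6 * q ^ 9 - 6 * (b * (b * (q - 1)) * q ^ 6) +
      3 * (b * (b - 1) * (b * (q - 1)) ^ 2 * q ^ 3) -
      ∑ M, ∑ i, ∑ j ∈ univ.erase i, ∑ k ∈ (univ.erase i).erase j,
        ind v C M i * ind v C M j * ind v C M k := by
    rw [sum_sub_distrib, sum_add_distrib, sum_sub_distrib, ← mul_sum, ← mul_sum]
    have a1 : ∑ M, ∑ i, ind v C M i = b * (b * (q - 1)) * q ^ 6 := by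
      rw [Finset.sum_comm, Finset.sum_congr rfl fun i _ => m1 v hv C i, sum_const, card_univ,
        hcard, nsmul_eq_mul, ← hb, ← hq]
      ring
    have a2 : ∑ M, (∑ i, ind v C M i) * (∑ i, ind v C M i - 1) =
        b * (b - 1) * (b * (q - 1)) ^ 2 * q ^ 3 := by
      have h1 : ∀ M, (∑ i, ind v C M i) * (∑ i, ind v C M i - 1) =
          ∑ i, ∑ j ∈ univ.erase i, ind v C M i * ind v C M j := fun M =>
        (sum2 (fun i => ind v C M i) (ind_sq v C M)).symm
      rw [Finset.sum_congr rfl fun M _ => h1 M, Finset.sum_comm]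
      have h2 : ∀ i : I, ∑ M, ∑ j ∈ univ.erase i, ind v C M i * ind v C M j =
          ∑ j ∈ univ.erase i, (1 * 1) * ((b * (q - 1)) ^ 2 * q ^ 3) := by
        intro i
        rw [Finset.sum_comm]
        refine Finset.sum_congr rfl fun j hj => ?_
        rw [m2 v C i j (hLI i j (ne_of_mem_erase hj).symm), hcard, ← hq]
        ring
      rw [Finset.sum_congr rfl fun i _ => h2 i]
      have s2 := sum2 (fun _ : I => (1 : ℤ)) (fun _ => by norm_num)
      have e : ∑ i : I, ∑ j ∈ univ.erase i, (1 * 1) * ((b * (q - 1)) ^ 2 * q ^ 3) =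
          (∑ i : I, ∑ j ∈ univ.erase i, (1 * 1 : ℤ)) * ((b * (q - 1)) ^ 2 * q ^ 3) := by
        rw [sum_mul]
        exact sum_congr rfl fun i _ => by rw [sum_mul]
      rw [e, s2]
      simp only [sum_const, card_univ, nsmul_eq_mul, mul_one]
      rw [← hb]; ring
    have a3 : ∑ M, (∑ i, ind v C M i) * (∑ i, ind v C M i - 1) * (∑ i, ind v C M i - 2) =
        ∑ M, ∑ i, ∑ j ∈ univ.erase i, ∑ k ∈ (univ.erase i).erase j,
        ind v C M i * ind v C M j * ind v C M k :=
      Finset.sum_congr rfl fun M _ => (sum3 (fun i => ind v C M i) (ind_sq v C M)).symm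
    have a0 : ∑ _M : Matrix (Fin 3) (Fin 3) F, (6 : ℤ) = 6 * q ^ 9 := by
      rw [sum_const, card_univ]
      have e9 : Fintype.card (Matrix (Fin 3) (Fin 3) F) = Fintype.card F ^ 9 := by
        rw [← Nat.card_eq_fintype_card]
        change Nat.card (Fin 3 → Fin 3 → F) = _
        rw [Nat.card_eq_fintype_card, Fintype.card_fun, Fintype.card_fun, Fintype.card_fin,
          ← pow_mul]
      rw [e9, hq, nsmul_eq_mul]; push_cast; ring
    rw [a0, a1, a2, a3]
  rw [hL] at hS
  have fin := hS.trans hR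
  rw [hcard, ← hb, ← hq] at t3
  have hTm : ((∑ i, ∑ j ∈ univ.erase i, nn v i j : ℕ) : ℤ) * (m * q ^ 3) ≤ T * (m * q ^ 3) :=
    mul_le_mul_of_nonneg_right hT (by positivity)
  linarith

end Pool.Agent.U638.BS
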